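import Pool.Agent.Helper99.WC.Torus

/-!
# XL (MP_fb29e9_nt), block A: Kronecker-Weyl for lines on the torus
-/

open MeasureTheory Real Set Filter Topology

set_option autoImplicit false

namespace Pool.Agent.Helper85.XL

open Pool.Agent.Helper99.WC

/-- the means of a nontrivial character tend to zero -/
theorem mean_exp_zero {a : ℝ} (ha : a ≠ 0) :
    Tendsto (meanC fun R => Complex.exp (2 * π * Complex.I * ((R * a : ℝ) : ℂ))) atTop (𝓝 0) := by
  rw [tendsto_zero_iff_norm_tendsto_zero]
  have hc : (2 * π * Complex.I * (a : ℂ)) ≠ 0 := by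
    have : (a : ℂ) ≠ 0 := by exact_mod_cast ha
    have h3 : (π : ℂ) ≠ 0 := by exact_mod_cast Real.pi_ne_zero
    simp [this, h3, Complex.I_ne_zero]
  have h1 : ∀ X : ℝ, 1 ≤ X → ‖meanC (fun R => Complex.exp (2 * π * Complex.I * ((R * a : ℝ) : ℂ))) X‖ ≤
      X⁻¹ * (2 / ‖(2 * π * Complex.I * (a : ℂ))‖) := by
    intro X hX
    have hX0 : 0 < X := by linarith
    unfold meanC
    rw [norm_mul, Complex.norm_real, Real.norm_eq_abs, abs_of_pos (inv_pos.2 hX0)]
    refine mul_le_mul_of_nonneg_left ?_ (inv_nonneg.2 hX0.le)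
    rw [integral_Icc_eq_integral_Ioc, ← intervalIntegral.integral_of_le (by linarith)]
    have e1 : (fun R : ℝ => Complex.exp (2 * π * Complex.I * ((R * a : ℝ) : ℂ))) =
        fun R : ℝ => Complex.exp ((2 * π * Complex.I * (a : ℂ)) * R) := by
      funext R
      congr 1
      push_cast
      ring
    rw [e1, integral_exp_mul_complex hc, norm_div]
    refine div_le_div_of_nonneg_right ?_ (norm_nonneg _)
    have h2 : ∀ R : ℝ, ‖Complex.exp ((2 * π * Complex.I * (a : ℂ)) * R)‖ = 1 := by
      intro R
      have : (2 * π * Complex.I * (a : ℂ)) * R = ((2 * π * a * R : ℝ) : ℂ) * Complex.I := by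
        push_cast
        ring
      rw [this, Complex.norm_exp_ofReal_mul_I]
    refine (norm_sub_le _ _).trans ?_
    rw [h2, h2]
    norm_num
  refine squeeze_zero' (Eventually.of_forall fun X => norm_nonneg _)
    ((eventually_ge_atTop (1 : ℝ)).mono h1) ?_
  have := tendsto_inv_atTop_zero (𝕜 := ℝ)
  simpa using this.mul_const (2 / ‖(2 * π * Complex.I * (a : ℂ))‖)

variable {ι : Type*} [Fintype ι]

theorem vol_eq : (volume : Measure UnitAddCircle) = AddCircle.haarAddCircle := by
  rw [AddCircle.volume_eq_smul_haarAddCircle, ENNReal.ofReal_one, one_smul]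

instance instProbVol : IsProbabilityMeasure (volume : Measure UnitAddCircle) :=
  ⟨UnitAddCircle.measure_univ⟩

theorem integral_mFourier_zero {n : ι → ℤ} (hn : n ≠ 0) :
    ∫ x, UnitAddTorus.mFourier n x = 0 := by
  rw [UnitAddTorus.mFourier, ContinuousMap.coe_mk, MeasureTheory.integral_fintype_prod_volume_eq_prod]
  obtain ⟨i, hi⟩ := Function.ne_iff.mp hn
  apply Finset.prod_eq_zero (Finset.mem_univ i)
  have h := (orthonormal_iff_ite.mp <| orthonormal_fourier (T := 1)) 0 (n i)
  rw [if_neg (fun h => hi h.symm), ContinuousMap.inner_toLp] at h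
  rw [vol_eq, ← h]
  refine integral_congr_ae (Eventually.of_forall fun x => ?_)
  simp

/-- **Kronecker-Weyl**, complex form -/
theorem mean_weyl' (h : ι → ℝ) (hh : ∀ n : ι → ℤ, n ≠ 0 → ∑ i, (n i : ℝ) * h i ≠ 0)
    (F : C(UnitAddTorus ι, ℂ)) :
    Tendsto (meanC fun R => F (line h R)) atTop (𝓝 (∫ x, F x)) := by
  have hcl : F ∈ closure ((Submodule.span ℂ (range (UnitAddTorus.mFourier (d := ι))) : Submodule ℂ C(UnitAddTorus ι, ℂ)) : Set C(UnitAddTorus ι, ℂ)) := by
    have h1 := UnitAddTorus.span_mFourier_closure_eq_top (d := ι)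
    rw [← Submodule.topologicalClosure_coe, h1]
    trivial
  have hint : ∀ P : C(UnitAddTorus ι, ℂ), Integrable (fun x => P x) := fun P =>
    P.continuous.integrable_of_hasCompactSupport (HasCompactSupport.of_compactSpace _)
  have hspan : ∀ P ∈ (Submodule.span ℂ (range (UnitAddTorus.mFourier (d := ι))) : Submodule ℂ C(UnitAddTorus ι, ℂ)),
      Tendsto (meanC fun R => P (line h R)) atTop (𝓝 (∫ x, P x)) := by
    intro P hP
    induction hP using Submodule.span_induction with
    | mem x hx =>
      obtain ⟨n, rfl⟩ := hx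
      have e : (fun R => UnitAddTorus.mFourier n (line h R)) =
          fun R => Complex.exp (2 * π * Complex.I * ((R * ∑ i, n i * h i : ℝ) : ℂ)) := by
        funext R
        exact mFourier_line h n R
      by_cases hn : n = 0
      · subst hn
        have e1 : (∫ x, UnitAddTorus.mFourier (0 : ι → ℤ) x) = 1 := by
          rw [UnitAddTorus.mFourier_zero]
          simp
        rw [e1]
        refine tendsto_const_nhds.congr' ?_
        filter_upwards [eventually_ge_atTop (1 : ℝ)] with X hX
        have hX0 : 0 < X := by linarith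
        rw [UnitAddTorus.mFourier_zero]
        unfold meanC
        simp only [ContinuousMap.one_apply]
        rw [setIntegral_const, Real.volume_real_Icc_of_le (by linarith), Complex.real_smul, mul_one]
        have : ((2 * X - X : ℝ) : ℂ) = (X : ℂ) := by push_cast; ring
        rw [this, Complex.ofReal_inv, inv_mul_cancel₀ (by exact_mod_cast hX0.ne')]
      · rw [integral_mFourier_zero hn, e]
        exact mean_exp_zero (hh n hn)
    | zero =>
      have : (meanC fun R => (0 : C(UnitAddTorus ι, ℂ)) (line h R)) = fun _ => 0 := by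
        funext X
        unfold meanC
        simp
      rw [this]
      simp
    | add x y _ _ hx hy =>
      have e1 : (∫ z, (x + y) z) = (∫ z, x z) + ∫ z, y z := integral_add (hint x) (hint y)
      rw [e1]
      refine (hx.add hy).congr fun X => ?_
      exact (meanC_add (F := fun R => x (line h R)) (G := fun R => y (line h R)) (x.continuous.comp (line_cont h))
        (y.continuous.comp (line_cont h)) X).symm
    | smul a x _ hx =>
      have e1 : (∫ z, (a • x) z) = a * ∫ z, x z := by
        rw [← integral_const_mul]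
        rfl
      rw [e1]
      refine (hx.const_mul a).congr fun X => ?_
      rw [← meanC_mul]
      rfl
  rw [Metric.tendsto_nhds]
  intro ε hε
  obtain ⟨P, hP, hd⟩ := Metric.mem_closure_iff.1 hcl (ε / 4) (by positivity)
  have h1 := (Metric.tendsto_nhds.1 (hspan P hP)) (ε / 4) (by positivity)
  filter_upwards [h1, eventually_ge_atTop (1 : ℝ)] with X h3 hX
  have h2 : dist (meanC (fun R => F (line h R)) X) (meanC (fun R => P (line h R)) X) ≤ ε / 4 := by
    refine meanC_dist (F.continuous.comp (line_cont h)) (P.continuous.comp (line_cont h)) (fun R => ?_) hX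
    rw [← dist_eq_norm]
    exact (ContinuousMap.dist_apply_le_dist _).trans hd.le
  have h4 : dist (∫ x, P x) (∫ x, F x) ≤ ε / 4 := by
    rw [dist_eq_norm, ← integral_sub (hint P) (hint F)]
    have h5 := norm_integral_le_of_norm_le_const (μ := (volume : Measure (UnitAddTorus ι)))
      (f := fun x => P x - F x) (C := ε / 4) (Eventually.of_forall fun x => ?_)
    · rw [probReal_univ, mul_one] at h5
      exact h5
    · rw [← dist_eq_norm, dist_comm]
      exact (ContinuousMap.dist_apply_le_dist _).trans hd.le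
  have h6 := dist_triangle4 (meanC (fun R => F (line h R)) X) (meanC (fun R => P (line h R)) X) (∫ x, P x) (∫ x, F x)
  linarith

/-- rationally independent frequencies have no integral relation -/
theorem no_rel {h : ι → ℝ} (hh : LinearIndependent ℚ h) (n : ι → ℤ) (hn : n ≠ 0) :
    ∑ i, (n i : ℝ) * h i ≠ 0 := by
  intro h0
  apply hn
  have h1 := Fintype.linearIndependent_iff.1 hh (fun i => (n i : ℚ)) (by
    rw [← h0]
    refine Finset.sum_congr rfl fun i _ => ?_
    rw [Rat.smul_def]
    push_cast
    rfl)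
  funext i
  exact_mod_cast h1 i

/-- **Kronecker-Weyl** for rationally independent frequencies -/
theorem mean_weyl (h : ι → ℝ) (hh : LinearIndependent ℚ h) (F : C(UnitAddTorus ι, ℂ)) :
    Tendsto (meanC fun R => F (line h R)) atTop (𝓝 (∫ x, F x)) :=
  mean_weyl' h (no_rel hh) F

/-- the real form -/
theorem mean_weyl_real' (h : ι → ℝ) (hh : ∀ n : ι → ℤ, n ≠ 0 → ∑ i, (n i : ℝ) * h i ≠ 0)
    {F : UnitAddTorus ι → ℝ} (hF : Continuous F) :
    Tendsto (fun X : ℝ => X⁻¹ * ∫ R in Icc X (2 * X), F (line h R)) atTop (𝓝 (∫ x, F x)) := by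
  have hM := mean_weyl' h hh ⟨fun y => (F y : ℂ), Complex.continuous_ofReal.comp hF⟩
  have e1 : ∀ X : ℝ, meanC (fun R => (F (line h R) : ℂ)) X =
      ((X⁻¹ * (∫ R in Icc X (2 * X), F (line h R)) : ℝ) : ℂ) := by
    intro X
    unfold meanC
    rw [integral_complex_ofReal]
    push_cast
    ring
  have e2 : (∫ x, ((F x : ℝ) : ℂ)) = ((∫ x, F x : ℝ) : ℂ) := integral_complex_ofReal
  have h2 := (Complex.continuous_re.tendsto _).comp hM
  rw [show (∫ x, (⟨fun y => (F y : ℂ), Complex.continuous_ofReal.comp hF⟩ : C(UnitAddTorus ι, ℂ)) x) =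
    ((∫ x, F x : ℝ) : ℂ) from e2, Complex.ofReal_re] at h2
  refine h2.congr fun X => ?_
  change (meanC (fun R => (F (line h R) : ℂ)) X).re = _
  rw [e1, Complex.ofReal_re]

/-- the integral over the torus as an integral over the cube -/
theorem integral_cube {E : Type*} [NormedAddCommGroup E] [NormedSpace ℝ E] {F : UnitAddTorus ι → E}
    (hF : Continuous F) : ∫ x, F x =
    ∫ u : ι → ℝ, F (fun i => (u i : UnitAddCircle)) ∂(Measure.pi fun _ => volume.restrict (Icc (0 : ℝ) 1)) := by
  have h1 := measurePreserving_pi (fun _ : ι => (volume : Measure ℝ).restrict (Ioc (0 : ℝ) (0 + 1)))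
    (fun _ : ι => (volume : Measure UnitAddCircle)) (fun _ => AddCircle.measurePreserving_mk 1 0)
  have h2 : (volume : Measure ℝ).restrict (Icc (0 : ℝ) 1) =
      (volume : Measure ℝ).restrict (Ioc (0 : ℝ) (0 + 1)) := by
    rw [zero_add]
    exact (Measure.restrict_congr_set Ioc_ae_eq_Icc).symm
  rw [h2]
  have h3 := h1.map_eq
  rw [show (volume : Measure (UnitAddTorus ι)) = Measure.pi fun _ : ι => (volume : Measure UnitAddCircle) from rfl,
    ← h3, integral_map h1.aemeasurable hF.aestronglyMeasurable]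

theorem mean_weyl_real (h : ι → ℝ) (hh : LinearIndependent ℚ h)
    {F : UnitAddTorus ι → ℝ} (hF : Continuous F) :
    Tendsto (fun X : ℝ => X⁻¹ * ∫ R in Icc X (2 * X), F (line h R)) atTop (𝓝 (∫ x, F x)) :=
  mean_weyl_real' h (no_rel hh) hF

/-- the real form with the integral over the cube: the coordinates are independent and uniform in `[0, 1]` -/
theorem mean_weyl_cube (h : ι → ℝ) (hh : ∀ n : ι → ℤ, n ≠ 0 → ∑ i, (n i : ℝ) * h i ≠ 0)
    {F : UnitAddTorus ι → ℝ} (hF : Continuous F) :
    Tendsto (fun X : ℝ => X⁻¹ * ∫ R in Icc X (2 * X), F (line h R)) atTop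
      (𝓝 (∫ u : ι → ℝ, F (fun i => (u i : UnitAddCircle)) ∂(Measure.pi fun _ => volume.restrict (Icc (0 : ℝ) 1)))) := by
  rw [← integral_cube hF]
  exact mean_weyl_real' h hh hF

end Pool.Agent.Helper85.XL
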